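import Pool.Agent.W823.QT.Stm

/-!
# MP_26aa9e_pr: two paths among the traps
-/

set_option autoImplicit false

namespace Pool.Agent.W486.QTC2

open MeasureTheory ProbabilityTheory Filter Topology Pool.Agent.W823.QT
open scoped ENNReal NNReal

lemma arith (a b : ℝ≥0∞) (ha : a ≤ 1) (hb : b ≤ 1) :
    (1 - a) + (1 - b) = (1 - a * b) + (1 - a) * (1 - b) := by
  have h1 : a + (1 - a) = 1 := add_tsub_cancel_of_le ha
  have h2 : b + (1 - b) = 1 := add_tsub_cancel_of_le hb
  set c := 1 - a with hc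
  set f := 1 - b with hf
  have hab : a * b ≠ ∞ := ENNReal.mul_ne_top (ne_top_of_le_ne_top ENNReal.one_ne_top ha)
    (ne_top_of_le_ne_top ENNReal.one_ne_top hb)
  have h3 : (1 : ℝ≥0∞) = a * b + (a * f + c * b + c * f) := by
    calc (1 : ℝ≥0∞) = (a + c) * (b + f) := by rw [h1, h2, one_mul]
      _ = _ := by ring
  have h4 : 1 - a * b = a * f + c * b + c * f := by
    rw [h3, ENNReal.add_sub_cancel_left hab]
  rw [h4]
  calc c + f = c * (b + f) + (a + c) * f := by rw [h1, h2, one_mul, mul_one]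
    _ = _ := by ring

lemma bern {ι : Type*} (s : Finset ι) (f : ι → ℝ≥0∞) (hf : ∀ i, f i ≤ 1) :
    1 - ∏ i ∈ s, f i ≤ ∑ i ∈ s, (1 - f i) := by
  classical
  induction s using Finset.induction_on with
  | empty => simp
  | insert a s ha ih =>
    rw [Finset.prod_insert ha, Finset.sum_insert ha]
    have hP : ∏ i ∈ s, f i ≤ 1 := Finset.prod_le_one' fun i _ => hf i
    calc 1 - f a * ∏ i ∈ s, f i ≤ (1 - f a * ∏ i ∈ s, f i) + (1 - f a) * (1 - ∏ i ∈ s, f i) :=
          le_self_add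
      _ = (1 - f a) + (1 - ∏ i ∈ s, f i) := (arith _ _ (hf a) hP).symm
      _ ≤ _ := by gcongr

variable {d : ℕ}

/-- survival factor -/
noncomputable def sf (e : ℝ≥0∞) (x : ℕ → Fin d → ℤ) (y : Fin d → ℤ) (w : ℕ → Fin d → ℤ) (i : ℕ) :
    ℝ≥0∞ := if y + pos w i = x i then e else 1

lemma sf_le {e : ℝ≥0∞} (he : e ≤ 1) (x : ℕ → Fin d → ℤ) (y : Fin d → ℤ) (w : ℕ → Fin d → ℤ)
    (i : ℕ) : sf e x y w i ≤ 1 := by
  unfold sf; split_ifs
  · exact he
  · exact le_rfl

lemma one_sub_sf (e : ℝ≥0∞) (x : ℕ → Fin d → ℤ) (y : Fin d → ℤ) (w : ℕ → Fin d → ℤ)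
    (i : ℕ) : 1 - sf e x y w i = (1 - e) * (if y + pos w i = x i then 1 else 0) := by
  unfold sf; split_ifs <;> simp

lemma pos_congr (a b : ℕ → Fin d → ℤ) (n k : ℕ) (hk : k ≤ n) (h : ∀ i < n, a i = b i) :
    pos a k = pos b k := by
  unfold pos
  exact Finset.sum_congr rfl fun i hi => h i (lt_of_lt_of_le (Finset.mem_range.1 hi) hk)

lemma meas_prod (h1 : MEAS_T) (e : ℝ≥0∞) (x : ℕ → Fin d → ℤ) (y : Fin d → ℤ) (n : ℕ) :
    Measurable fun w : ℕ → Fin d → ℤ => ∏ i ∈ Finset.Icc 1 n, sf e x y w i := by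
  refine h1 d n _ fun a b hab => Finset.prod_congr rfl fun i hi => ?_
  unfold sf
  rw [pos_congr a b n i (Finset.mem_Icc.1 hi).2 hab]

lemma meas_ind (h1 : MEAS_T) (k : ℕ) (v : Fin d → ℤ) :
    Measurable fun w : ℕ → Fin d → ℤ => (if pos w k = v then (1 : ℝ≥0∞) else 0) := by
  refine h1 d k _ fun a b hab => ?_
  show (if pos a k = v then (1 : ℝ≥0∞) else 0) = (if pos b k = v then (1 : ℝ≥0∞) else 0)
  rw [pos_congr a b k k le_rfl hab]

lemma pk_eq (h1 : MEAS_T) (r : Measure (Fin d → ℤ)) (k : ℕ) (v : Fin d → ℤ) :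
    ∫⁻ w, (if pos w k = v then (1 : ℝ≥0∞) else 0) ∂(iid r) = pk r k v := by
  have hm := meas_ind h1 k v
  have hs : MeasurableSet {w : ℕ → Fin d → ℤ | pos w k = v} := by
    have : {w : ℕ → Fin d → ℤ | pos w k = v} =
        (fun w : ℕ → Fin d → ℤ => (if pos w k = v then (1 : ℝ≥0∞) else 0)) ⁻¹' {1} := by
      ext w; simp
    rw [this]
    exact hm (measurableSet_singleton _)
  have : (fun w : ℕ → Fin d → ℤ => (if pos w k = v then (1 : ℝ≥0∞) else 0)) =
      Set.indicator {w : ℕ → Fin d → ℤ | pos w k = v} (fun _ => 1) := by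
    ext w; simp [Set.indicator]
  rw [this, lintegral_indicator hs]
  simp [pk]

lemma pk_neg (h1 : MEAS_T) (h3 : FLIP_T) (r : Measure (Fin d → ℤ)) [IsProbabilityMeasure r]
    (hr : r.map (fun x => -x) = r) (k : ℕ) (v : Fin d → ℤ) : pk r k (-v) = pk r k v := by
  rw [← pk_eq h1, ← pk_eq h1, ← h3 d r hr k _ (meas_ind h1 k v)]
  refine lintegral_congr fun a => ?_
  have : pos (fun i => if i < k then -(a i) else a i) k = - pos a k := by
    unfold pos
    rw [← Finset.sum_neg_distrib]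
    refine Finset.sum_congr rfl fun i hi => ?_
    simp [Finset.mem_range.1 hi]
  rw [this]
  simp only [neg_eq_iff_eq_neg]

lemma pos_sub (w : ℕ → Fin d → ℤ) (i j : ℕ) (h : j ≤ i) :
    pos w i = pos w j + pos (sh j w) (i - j) := by
  unfold pos sh
  obtain ⟨m, rfl⟩ := Nat.exists_eq_add_of_le h
  rw [Finset.sum_range_add, Nat.add_sub_cancel_left]

lemma mark_ind (h1 : MEAS_T) (h2 : MARK_T) (r : Measure (Fin d → ℤ)) [IsProbabilityMeasure r]
    (j k : ℕ) (v : Fin d → ℤ) :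
    ∫⁻ w, (if pos (sh j w) k = v then (1 : ℝ≥0∞) else 0) ∂(iid r) = pk r k v := by
  have := h2 d r j (fun _ b => if pos b k = v then (1 : ℝ≥0∞) else 0)
    ((meas_ind h1 k v).comp measurable_snd) (fun a a' b _ => rfl)
  rw [this]
  have : IsProbabilityMeasure (iid r) := by unfold iid; infer_instance
  rw [lintegral_const, measure_univ, mul_one, pk_eq h1]

lemma two (h1 : MEAS_T) (h2 : MARK_T) (h3 : FLIP_T) (r : Measure (Fin d → ℤ))
    [IsProbabilityMeasure r] (hr : r.map (fun x => -x) = r) (i j : ℕ) (u v : Fin d → ℤ) :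
    ∑' y : Fin d → ℤ, ∫⁻ w, (if y + pos w i = u then (1 : ℝ≥0∞) else 0) *
      (if y + pos w j = v then (1 : ℝ≥0∞) else 0) ∂(iid r) = pk r ((i - j) + (j - i)) (u - v) := by
  have hm : ∀ y : Fin d → ℤ, ∀ (k : ℕ) (u : Fin d → ℤ), Measurable fun w : ℕ → Fin d → ℤ =>
      (if y + pos w k = u then (1 : ℝ≥0∞) else 0) := by
    intro y k u
    refine h1 d k _ fun a b hab => ?_
    show (if y + pos a k = u then (1 : ℝ≥0∞) else 0) = (if y + pos b k = u then (1 : ℝ≥0∞) else 0)
    rw [pos_congr a b k k le_rfl hab]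
  have hmm : ∀ y : Fin d → ℤ, AEMeasurable (fun w : ℕ → Fin d → ℤ =>
      (if y + pos w i = u then (1 : ℝ≥0∞) else 0) *
      (if y + pos w j = v then (1 : ℝ≥0∞) else 0)) (iid r) :=
    fun y => ((hm y i u).mul (hm y j v)).aemeasurable
  rw [← lintegral_tsum hmm]
  have key : ∀ w : ℕ → Fin d → ℤ, ∑' y : Fin d → ℤ, (if y + pos w i = u then (1 : ℝ≥0∞) else 0) *
      (if y + pos w j = v then (1 : ℝ≥0∞) else 0) =
      (if u - pos w i + pos w j = v then (1 : ℝ≥0∞) else 0) := by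
    intro w
    rw [tsum_eq_single (u - pos w i)]
    · simp
    · intro y hy
      rw [if_neg, zero_mul]
      intro h
      exact hy (by rw [← h]; simp)
  rw [lintegral_congr key]
  rcases le_total j i with h | h
  · rw [Nat.sub_eq_zero_of_le h, add_zero, ← mark_ind h1 h2 r j (i - j) (u - v)]
    refine lintegral_congr fun w => ?_
    have : (u - pos w i + pos w j = v) ↔ (pos (sh j w) (i - j) = u - v) := by
      rw [pos_sub w i j h]
      constructor
      · intro hh; rw [← hh]; abel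
      · intro hh; rw [hh]; abel
    simp only [this]
  · rw [Nat.sub_eq_zero_of_le h, zero_add, ← pk_neg h1 h3 r hr, ← mark_ind h1 h2 r i (j - i)]
    refine lintegral_congr fun w => ?_
    have : (u - pos w i + pos w j = v) ↔ (pos (sh i w) (j - i) = -(u - v)) := by
      rw [pos_sub w j i h]
      constructor
      · intro hh; rw [← hh]; abel
      · intro hh; rw [hh]; abel
    simp only [this]

theorem main (h1 : MEAS_T) (h2 : MARK_T) (h3 : FLIP_T) : C2_T := by
  intro d r _ hr e he n x x'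
  have : IsProbabilityMeasure (iid r) := by unfold iid; infer_instance
  set P : (Fin d → ℤ) → (ℕ → Fin d → ℤ) → ℝ≥0∞ :=
    fun y w => ∏ i ∈ Finset.Icc 1 n, sf e x y w i with hP
  set P' : (Fin d → ℤ) → (ℕ → Fin d → ℤ) → ℝ≥0∞ :=
    fun y w => ∏ i ∈ Finset.Icc 1 n, sf e x' y w i with hP'
  have hPm : ∀ y, Measurable (P y) := fun y => meas_prod h1 e x y n
  have hPm' : ∀ y, Measurable (P' y) := fun y => meas_prod h1 e x' y n
  have hP1 : ∀ y w, P y w ≤ 1 := fun y w => Finset.prod_le_one' fun i _ => sf_le he x y w i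
  have hP1' : ∀ y w, P' y w ≤ 1 := fun y w => Finset.prod_le_one' fun i _ => sf_le he x' y w i
  have hint : ∀ f : (ℕ → Fin d → ℤ) → ℝ≥0∞, Measurable f → (∀ w, f w ≤ 1) →
      1 - ∫⁻ w, f w ∂(iid r) = ∫⁻ w, (1 - f w) ∂(iid r) := by
    intro f hf hf1
    have hfin : ∫⁻ w, f w ∂(iid r) ≠ ∞ := by
      refine ne_top_of_le_ne_top ENNReal.one_ne_top ?_
      calc ∫⁻ w, f w ∂(iid r) ≤ ∫⁻ _, 1 ∂(iid r) := lintegral_mono hf1
        _ = 1 := by simp
    rw [lintegral_sub hf hfin (ae_of_all _ hf1)]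
    simp
  have e1 : Cn e r n x = ∑' y, ∫⁻ w, (1 - P y w) ∂(iid r) := by
    unfold Cn
    refine tsum_congr fun y => ?_
    exact hint (P y) (hPm y) (hP1 y)
  have e1' : Cn e r n x' = ∑' y, ∫⁻ w, (1 - P' y w) ∂(iid r) := by
    unfold Cn
    refine tsum_congr fun y => ?_
    exact hint (P' y) (hPm' y) (hP1' y)
  have e2 : C2 e r n x x' = ∑' y, ∫⁻ w, (1 - P y w * P' y w) ∂(iid r) := by
    unfold C2
    refine tsum_congr fun y => ?_
    rw [← hint (fun w => P y w * P' y w) ((hPm y).mul (hPm' y))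
      (fun w => mul_le_one' (hP1 y w) (hP1' y w))]
    congr 1
    refine lintegral_congr fun w => ?_
    rw [hP, hP', ← Finset.prod_mul_distrib]
    rfl
  have hsum : Cn e r n x + Cn e r n x' = C2 e r n x x' +
      ∑' y, ∫⁻ w, (1 - P y w) * (1 - P' y w) ∂(iid r) := by
    rw [e1, e1', e2, ← ENNReal.tsum_add, ← ENNReal.tsum_add]
    refine tsum_congr fun y => ?_
    have g1 : Measurable fun w => 1 - P y w := measurable_const.sub (hPm y)
    have g2 : Measurable fun w => 1 - P y w * P' y w :=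
      measurable_const.sub ((hPm y).mul (hPm' y))
    rw [← lintegral_add_left g1, ← lintegral_add_left g2]
    exact lintegral_congr fun w => arith _ _ (hP1 y w) (hP1' y w)
  rw [hsum]
  gcongr
  have hb : ∀ y w, (1 - P y w) * (1 - P' y w) ≤ (1 - e) ^ 2 *
      ∑ i ∈ Finset.Icc 1 n, ∑ j ∈ Finset.Icc 1 n,
        ((if y + pos w i = x i then (1 : ℝ≥0∞) else 0) *
          (if y + pos w j = x' j then (1 : ℝ≥0∞) else 0)) := by
    intro y w
    have b1 := bern (Finset.Icc 1 n) (fun i => sf e x y w i) (fun i => sf_le he x y w i)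
    have b2 := bern (Finset.Icc 1 n) (fun i => sf e x' y w i) (fun i => sf_le he x' y w i)
    calc (1 - P y w) * (1 - P' y w) ≤ (∑ i ∈ Finset.Icc 1 n, (1 - sf e x y w i)) *
          ∑ j ∈ Finset.Icc 1 n, (1 - sf e x' y w j) := mul_le_mul' b1 b2
      _ = _ := by
        simp only [one_sub_sf]
        rw [← Finset.mul_sum, ← Finset.mul_sum, ← Finset.sum_mul_sum]
        ring
  have hm : ∀ (x : ℕ → Fin d → ℤ) (y : Fin d → ℤ) (k : ℕ), Measurable fun w : ℕ → Fin d → ℤ =>
      (if y + pos w k = x k then (1 : ℝ≥0∞) else 0) := by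
    intro x y k
    refine h1 d k _ fun a b hab => ?_
    show (if y + pos a k = x k then (1 : ℝ≥0∞) else 0) =
      (if y + pos b k = x k then (1 : ℝ≥0∞) else 0)
    rw [pos_congr a b k k le_rfl hab]
  calc ∑' y, ∫⁻ w, (1 - P y w) * (1 - P' y w) ∂(iid r)
      ≤ ∑' y, ∫⁻ w, (1 - e) ^ 2 * ∑ i ∈ Finset.Icc 1 n, ∑ j ∈ Finset.Icc 1 n,
        ((if y + pos w i = x i then (1 : ℝ≥0∞) else 0) *
          (if y + pos w j = x' j then (1 : ℝ≥0∞) else 0)) ∂(iid r) :=
        ENNReal.tsum_le_tsum fun y => lintegral_mono fun w => hb y w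
    _ = ∑' y, (1 - e) ^ 2 * ∑ i ∈ Finset.Icc 1 n, ∑ j ∈ Finset.Icc 1 n,
        ∫⁻ w, ((if y + pos w i = x i then (1 : ℝ≥0∞) else 0) *
          (if y + pos w j = x' j then (1 : ℝ≥0∞) else 0)) ∂(iid r) := by
        refine tsum_congr fun y => ?_
        rw [lintegral_const_mul' _ _ (ENNReal.pow_ne_top
          (ne_top_of_le_ne_top ENNReal.one_ne_top tsub_le_self))]
        congr 1
        have g : ∀ i j : ℕ, Measurable fun w : ℕ → Fin d → ℤ =>
            (if y + pos w i = x i then (1 : ℝ≥0∞) else 0) *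
              (if y + pos w j = x' j then (1 : ℝ≥0∞) else 0) :=
          fun i j => (hm x y i).mul (hm x' y j)
        rw [lintegral_finsetSum _ fun i _ => Finset.measurable_fun_sum _ fun j _ => g i j]
        refine Finset.sum_congr rfl fun i _ => ?_
        rw [lintegral_finsetSum _ fun j _ => g i j]
    _ = (1 - e) ^ 2 * ∑ i ∈ Finset.Icc 1 n, ∑ j ∈ Finset.Icc 1 n,
        ∑' y, ∫⁻ w, ((if y + pos w i = x i then (1 : ℝ≥0∞) else 0) *
          (if y + pos w j = x' j then (1 : ℝ≥0∞) else 0)) ∂(iid r) := by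
        rw [ENNReal.tsum_mul_left]
        congr 1
        rw [Summable.tsum_finsetSum fun i _ => ENNReal.summable]
        refine Finset.sum_congr rfl fun i _ => ?_
        rw [Summable.tsum_finsetSum fun i _ => ENNReal.summable]
    _ = _ := by
        congr 1
        refine Finset.sum_congr rfl fun i _ => Finset.sum_congr rfl fun j _ => ?_
        exact two h1 h2 h3 r hr i j (x i) (x' j)

end Pool.Agent.W486.QTC2
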