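import Pool.Agent.W486.DarjiA

set_option autoImplicit false
open Topology Set

namespace Pool.Agent.W486.Darji

theorem perm_apply_inv (a : Equiv.Perm ℚ) (x : ℚ) : a (a⁻¹ x) = x := a.apply_symm_apply x
theorem perm_inv_apply (a : Equiv.Perm ℚ) (x : ℚ) : a⁻¹ (a x) = x := a.symm_apply_apply x

/-- The order automorphism of `ℚ` which is the identity on `(-∞, x]` and has slope `l` on
`[x, ∞)`. -/
def hmap (x : ℚ) (l : {l : ℚ // 0 < l}) : Equiv.Perm ℚ where
  toFun z := if z ≤ x then z else x + l.1 * (z - x)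
  invFun z := if z ≤ x then z else x + l.1⁻¹ * (z - x)
  left_inv z := by
    by_cases hz : z ≤ x
    · simp [hz]
    · have h1 : ¬ (x + l.1 * (z - x) ≤ x) := by
        have := mul_pos l.2 (sub_pos.2 (not_le.1 hz))
        linarith
      have h2 : l.1 ≠ 0 := l.2.ne'
      simp only [hz, if_false, h1]
      field_simp
      ring
  right_inv z := by
    by_cases hz : z ≤ x
    · simp [hz]
    · have h1 : ¬ (x + l.1⁻¹ * (z - x) ≤ x) := by
        have := mul_pos (inv_pos.2 l.2) (sub_pos.2 (not_le.1 hz))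
        linarith
      have h2 : l.1 ≠ 0 := l.2.ne'
      simp only [hz, if_false, h1]
      field_simp
      ring

theorem hmap_apply (x : ℚ) (l : {l : ℚ // 0 < l}) (z : ℚ) :
    hmap x l z = if z ≤ x then z else x + l.1 * (z - x) := rfl

theorem hmap_strictMono (x : ℚ) (l : {l : ℚ // 0 < l}) : StrictMono (hmap x l) := by
  intro z w hzw
  rw [hmap_apply, hmap_apply]
  by_cases hz : z ≤ x
  · by_cases hw : w ≤ x
    · simpa [hz, hw] using hzw
    · have := mul_pos l.2 (sub_pos.2 (not_le.1 hw))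
      simp only [hz, hw, if_true, if_false]
      linarith
  · have hw : ¬ w ≤ x := fun h => hz (hzw.le.trans h)
    have := mul_lt_mul_of_pos_left (sub_lt_sub_right hzw x) l.2
    simp only [hz, hw, if_false]
    linarith

/-- The countable group generated by the maps `hmap x l`. -/
def H : Subgroup (Equiv.Perm ℚ) :=
  Subgroup.closure (Set.range fun p : ℚ × {l : ℚ // 0 < l} => hmap p.1 p.2)

/-- The strictly increasing permutations of `ℚ`. -/
def SM : Subgroup (Equiv.Perm ℚ) where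
  carrier := {g | StrictMono g}
  mul_mem' := by
    intro a b ha hb
    exact fun x y hxy => ha (hb hxy)
  one_mem' := fun x y hxy => hxy
  inv_mem' := by
    intro a ha x y hxy
    by_contra hcon
    have h1 : a (a⁻¹ y) ≤ a (a⁻¹ x) := ha.monotone (not_lt.1 hcon)
    rw [perm_apply_inv, perm_apply_inv] at h1
    exact absurd hxy (not_lt.2 h1)

theorem H_le_SM : H ≤ SM := by
  rw [H, Subgroup.closure_le]
  rintro _ ⟨p, rfl⟩
  exact hmap_strictMono p.1 p.2

theorem countable_H : (H : Set (Equiv.Perm ℚ)).Countable := by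
  have h1 : H = (FreeGroup.lift (fun p : ℚ × {l : ℚ // 0 < l} => hmap p.1 p.2)).range := by
    rw [FreeGroup.range_lift_eq_closure]; rfl
  have hc : Countable (FreeGroup (ℚ × {l : ℚ // 0 < l})) := by
    have : Function.Surjective
        (fun L : List ((ℚ × {l : ℚ // 0 < l}) × Bool) => FreeGroup.mk L) := by
      intro x
      exact Quot.exists_rep x
    exact this.countable
  rw [h1, MonoidHom.coe_range]
  exact Set.countable_range _

/-- The permutations of `ℚ` which on every initial segment coincide with an element of `H`. -/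
def Gsub : Subgroup (Equiv.Perm ℚ) where
  carrier := {g | ∀ x : ℚ, ∃ h ∈ H, ∀ z ≤ x, g z = h z}
  mul_mem' := by
    intro a b ha hb x
    obtain ⟨h, hh, hx⟩ := hb x
    obtain ⟨k, hk, hkx⟩ := ha (h x)
    refine ⟨k * h, H.mul_mem hk hh, fun z hz => ?_⟩
    rw [Equiv.Perm.mul_apply, Equiv.Perm.mul_apply, hx z hz]
    exact hkx _ ((H_le_SM hh : StrictMono h).monotone hz)
  one_mem' := fun x => ⟨1, H.one_mem, fun z _ => rfl⟩
  inv_mem' := by
    intro a ha x
    obtain ⟨h, hh, hx⟩ := ha (a⁻¹ x)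
    refine ⟨h⁻¹, H.inv_mem hh, fun z hz => ?_⟩
    -- `a = h` on `(-∞, a⁻¹ x]`
    have hax : h (a⁻¹ x) = x := by
      rw [← hx _ le_rfl, perm_apply_inv]
    have h1 : h⁻¹ z ≤ a⁻¹ x := by
      have := (H_le_SM (H.inv_mem hh) : StrictMono ⇑h⁻¹).monotone hz
      rwa [← hax, perm_inv_apply] at this
    have h2 := hx _ h1
    rw [perm_apply_inv] at h2
    rw [← h2, perm_inv_apply]
    rw [h2]

/-- The example. -/
def LG : Type := Gsub

instance : Group LG := inferInstanceAs (Group Gsub)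
instance : MulAction LG ℚ := inferInstanceAs (MulAction Gsub ℚ)

theorem LG_smul_def (g : LG) (z : ℚ) : g • z = g.1 z := rfl

theorem LG_spec (g : LG) (x : ℚ) : ∃ h ∈ H, ∀ z ≤ x, g • z = h z := g.2 x

theorem LG_strictMono (g : LG) : StrictMono (fun z : ℚ => g • z) := by
  intro z w hzw
  obtain ⟨h, hh, hx⟩ := LG_spec g w
  show g • z < g • w
  rw [hx z hzw.le, hx w le_rfl]
  exact (H_le_SM hh : StrictMono h) hzw

theorem LG_ext {g g' : LG} (h : ∀ z : ℚ, g • z = g' • z) : g = g' :=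
  Subtype.ext (Equiv.ext h)

/-- Countable discrete space of truncations. -/
def Tr : Type := {f : ℚ → ℚ // ∃ h ∈ H, ∃ n : ℕ, f = fun z => h (min z (n : ℚ))}

instance : TopologicalSpace Tr := ⊥
instance : DiscreteTopology Tr := ⟨rfl⟩

instance countable_Tr : Countable Tr := by
  have : {f : ℚ → ℚ | ∃ h ∈ H, ∃ n : ℕ, f = fun z => h (min z (n : ℚ))}.Countable := by
    have h1 : ((fun p : (Equiv.Perm ℚ) × ℕ => fun z : ℚ => p.1 (min z (p.2 : ℚ))) ''
        ((H : Set (Equiv.Perm ℚ)) ×ˢ (Set.univ : Set ℕ))).Countable :=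
      (countable_H.prod Set.countable_univ).image _
    refine h1.mono ?_
    rintro f ⟨h, hh, n, rfl⟩
    exact ⟨(h, n), ⟨hh, trivial⟩, rfl⟩
  exact this.to_subtype

instance : SecondCountableTopology Tr :=
  DiscreteTopology.secondCountableTopology_of_countable

instance : PolishSpace Tr := inferInstance

/-- Truncation of a group element. -/
def tr (g : LG) (n : ℕ) : Tr := ⟨fun z => g • (min z (n : ℚ)), by
  obtain ⟨h, hh, hx⟩ := LG_spec g n
  exact ⟨h, hh, n, funext fun z => hx _ (min_le_right _ _)⟩⟩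

theorem tr_eq_iff (g g' : LG) (n : ℕ) : tr g n = tr g' n ↔ ∀ z : ℚ, z ≤ n → g • z = g' • z := by
  constructor
  · intro h z hz
    have := congrFun (congrArg Subtype.val h) z
    simpa [tr, min_eq_left hz] using this
  · intro h
    apply Subtype.ext
    funext z
    exact h _ (min_le_right _ _)

/-- The embedding. -/
def Φ (g : LG) : (ℕ → Tr) × (ℕ → Tr) := (fun n => tr g n, fun n => tr g⁻¹ n)

instance : TopologicalSpace LG := TopologicalSpace.induced Φ inferInstance

theorem continuous_Φ : Continuous Φ := continuous_induced_dom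

theorem eventually_tr (g : LG) (n : ℕ) : ∀ᶠ g' in 𝓝 g, tr g' n = tr g n := by
  have hc : Continuous fun g : LG => tr g n :=
    (continuous_apply n).comp (continuous_fst.comp continuous_Φ)
  have := hc.continuousAt (x := g)
  rw [ContinuousAt, nhds_discrete Tr, Filter.tendsto_pure] at this
  exact this

theorem eventually_tr_inv (g : LG) (n : ℕ) : ∀ᶠ g' in 𝓝 g, tr g'⁻¹ n = tr g⁻¹ n := by
  have hc : Continuous fun g : LG => tr g⁻¹ n :=
    (continuous_apply n).comp (continuous_snd.comp continuous_Φ)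
  have := hc.continuousAt (x := g)
  rw [ContinuousAt, nhds_discrete Tr, Filter.tendsto_pure] at this
  exact this

theorem tr_mul_eventually (a b : LG) (n : ℕ) :
    ∃ N : ℕ, ∀ a' b' : LG, tr b' n = tr b n → tr a' N = tr a N → tr (a' * b') n = tr (a * b) n := by
  obtain ⟨N, hN⟩ := exists_nat_ge (b • (n : ℚ))
  refine ⟨N, fun a' b' hb ha => ?_⟩
  rw [tr_eq_iff] at hb ha ⊢
  intro z hz
  rw [mul_smul, mul_smul, hb z hz]
  apply ha
  exact ((LG_strictMono b).monotone hz).trans hN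

instance : IsTopologicalGroup LG where
  continuous_mul := by
    refine continuous_induced_rng.2 (Continuous.prodMk (continuous_pi fun n => ?_)
      (continuous_pi fun n => ?_))
    · rw [continuous_iff_continuousAt]
      rintro ⟨a, b⟩
      rw [ContinuousAt, nhds_discrete Tr, Filter.tendsto_pure]
      obtain ⟨N, hN⟩ := tr_mul_eventually a b n
      have h1 := (continuous_fst.tendsto (a, b)).eventually (eventually_tr a N)
      have h2 := (continuous_snd.tendsto (a, b)).eventually (eventually_tr b n)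
      filter_upwards [h1, h2] with p hp1 hp2
      exact hN _ _ hp2 hp1
    · rw [continuous_iff_continuousAt]
      rintro ⟨a, b⟩
      rw [ContinuousAt, nhds_discrete Tr, Filter.tendsto_pure]
      obtain ⟨N, hN⟩ := tr_mul_eventually b⁻¹ a⁻¹ n
      have h1 := (continuous_fst.tendsto (a, b)).eventually (eventually_tr_inv a n)
      have h2 := (continuous_snd.tendsto (a, b)).eventually (eventually_tr_inv b N)
      filter_upwards [h1, h2] with p hp1 hp2
      have := hN _ _ hp1 hp2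
      simpa only [mul_inv_rev] using this
  continuous_inv := by
    refine continuous_induced_rng.2 (Continuous.prodMk (continuous_pi fun n => ?_)
      (continuous_pi fun n => ?_))
    · exact (continuous_apply n).comp (continuous_snd.comp continuous_Φ)
    · simp only [inv_inv]
      exact (continuous_apply n).comp (continuous_fst.comp continuous_Φ)

theorem Φ_injective : Function.Injective Φ := by
  intro g g' h
  apply LG_ext
  intro z
  obtain ⟨n, hn⟩ := exists_nat_ge z
  have := congrFun (congrArg Prod.fst h) n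
  exact (tr_eq_iff g g' n).1 this z hn

theorem cyl_nhds (p : (ℕ → Tr) × (ℕ → Tr)) (n : ℕ) :
    {q : (ℕ → Tr) × (ℕ → Tr) | ∀ i ≤ n, q.1 i = p.1 i ∧ q.2 i = p.2 i} ∈ 𝓝 p := by
  have : ∀ i ≤ n, ∀ᶠ q : (ℕ → Tr) × (ℕ → Tr) in 𝓝 p, q.1 i = p.1 i ∧ q.2 i = p.2 i := by
    intro i _
    have h1 : Continuous fun q : (ℕ → Tr) × (ℕ → Tr) => q.1 i :=
      (continuous_apply i).comp continuous_fst
    have h2 : Continuous fun q : (ℕ → Tr) × (ℕ → Tr) => q.2 i :=
      (continuous_apply i).comp continuous_snd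
    have h1' := h1.continuousAt (x := p)
    have h2' := h2.continuousAt (x := p)
    rw [ContinuousAt, nhds_discrete Tr, Filter.tendsto_pure] at h1' h2'
    exact h1'.and h2'
  have h := (Filter.eventually_all_finite (Set.finite_Iic n)).2 this
  exact h

theorem isClosed_range_Φ : IsClosed (Set.range Φ) := by
  apply isClosed_of_closure_subset
  intro p hp
  have hw : ∀ n : ℕ, ∃ g : LG, ∀ i ≤ n, tr g i = p.1 i ∧ tr g⁻¹ i = p.2 i := by
    intro n
    obtain ⟨q, hq, g, rfl⟩ := mem_closure_iff_nhds.1 hp _ (cyl_nhds p n)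
    exact ⟨g, hq⟩
  choose g hg using hw
  have hF : ∀ (z : ℚ) (m : ℕ), ⌈z⌉₊ ≤ m → (p.1 ⌈z⌉₊).1 z = (g m) • z := by
    intro z m hm
    rw [← (hg m ⌈z⌉₊ hm).1]
    show g m • (min z ((⌈z⌉₊ : ℕ) : ℚ)) = g m • z
    rw [min_eq_left (Nat.le_ceil z)]
  have hF' : ∀ (z : ℚ) (m : ℕ), ⌈z⌉₊ ≤ m → (p.2 ⌈z⌉₊).1 z = (g m)⁻¹ • z := by
    intro z m hm
    rw [← (hg m ⌈z⌉₊ hm).2]
    show (g m)⁻¹ • (min z ((⌈z⌉₊ : ℕ) : ℚ)) = (g m)⁻¹ • z
    rw [min_eq_left (Nat.le_ceil z)]
  let e : Equiv.Perm ℚ :=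
    { toFun := fun z => (p.1 ⌈z⌉₊).1 z
      invFun := fun z => (p.2 ⌈z⌉₊).1 z
      left_inv := by
        intro z
        set w := (p.1 ⌈z⌉₊).1 z with hw
        set m := max ⌈z⌉₊ ⌈w⌉₊
        show (p.2 ⌈w⌉₊).1 w = z
        rw [hF' w m (le_max_right _ _), hw, hF z m (le_max_left _ _), inv_smul_smul]
      right_inv := by
        intro z
        set w := (p.2 ⌈z⌉₊).1 z with hw
        set m := max ⌈z⌉₊ ⌈w⌉₊
        show (p.1 ⌈w⌉₊).1 w = z
        rw [hF w m (le_max_right _ _), hw, hF' z m (le_max_left _ _), smul_inv_smul] }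
  have he : ∀ (z : ℚ) (m : ℕ), ⌈z⌉₊ ≤ m → e z = (g m) • z := hF
  have he' : ∀ (z : ℚ) (m : ℕ), ⌈z⌉₊ ≤ m → e⁻¹ z = (g m)⁻¹ • z := hF'
  have hmem : e ∈ Gsub := by
    intro x
    obtain ⟨h, hh, hx⟩ := LG_spec (g ⌈x⌉₊) x
    refine ⟨h, hh, fun z hz => ?_⟩
    rw [he z ⌈x⌉₊ (Nat.ceil_mono hz)]
    exact hx z hz
  refine ⟨(⟨e, hmem⟩ : Gsub), ?_⟩
  apply Prod.ext
  · funext n
    show tr (⟨e, hmem⟩ : Gsub) n = p.1 n
    rw [← (hg n n le_rfl).1, tr_eq_iff]
    intro z hz
    exact he z n (Nat.ceil_le.2 hz)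
  · funext n
    show tr ((⟨e, hmem⟩ : Gsub) : LG)⁻¹ n = p.2 n
    rw [← (hg n n le_rfl).2, tr_eq_iff]
    intro z hz
    exact he' z n (Nat.ceil_le.2 hz)

theorem isClosedEmbedding_Φ : IsClosedEmbedding Φ :=
  ⟨⟨⟨rfl⟩, Φ_injective⟩, isClosed_range_Φ⟩

instance : PolishSpace LG := isClosedEmbedding_Φ.polishSpace

/-- The open subgroups. -/
def O (x : ℚ) : Subgroup LG where
  carrier := {g | ∀ z : ℚ, z ≤ x → g • z = z}
  mul_mem' := by
    intro a b ha hb z hz
    rw [mul_smul, hb z hz, ha z hz]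
  one_mem' := fun z _ => one_smul _ z
  inv_mem' := by
    intro a ha z hz
    rw [inv_smul_eq_iff, ha z hz]

theorem mem_O {x : ℚ} {g : LG} : g ∈ O x ↔ ∀ z : ℚ, z ≤ x → g • z = z := Iff.rfl

theorem H_mem_LG {h : Equiv.Perm ℚ} (hh : h ∈ H) : h ∈ Gsub := fun _ => ⟨h, hh, fun _ _ => rfl⟩

theorem isOpen_O (x : ℚ) : IsOpen (O x : Set LG) := by
  apply Subgroup.isOpen_of_mem_nhds (g := 1)
  obtain ⟨n, hn⟩ := exists_nat_ge x
  filter_upwards [eventually_tr 1 n] with g hg z hz
  rw [tr_eq_iff] at hg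
  rw [hg z (hz.trans hn), one_smul]

theorem basis_O (U : Set LG) (hU : U ∈ 𝓝 (1 : LG)) : ∃ x, (O x : Set LG) ⊆ U := by
  rw [nhds_induced, Filter.mem_comap] at hU
  obtain ⟨V, hV, hVU⟩ := hU
  rw [mem_nhds_prod_iff] at hV
  obtain ⟨V1, hV1, V2, hV2, hV⟩ := hV
  obtain ⟨W1, hW1, hW1o, hW1m⟩ := mem_nhds_iff.1 hV1
  obtain ⟨W2, hW2, hW2o, hW2m⟩ := mem_nhds_iff.1 hV2
  obtain ⟨I1, u1, hu1, hI1⟩ := isOpen_pi_iff.1 hW1o _ hW1m
  obtain ⟨I2, u2, hu2, hI2⟩ := isOpen_pi_iff.1 hW2o _ hW2m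
  obtain ⟨n, hn⟩ : ∃ n : ℕ, ∀ i ∈ I1 ∪ I2, i ≤ n :=
    ⟨(I1 ∪ I2).sup id, fun i hi => Finset.le_sup (f := id) hi⟩
  refine ⟨n, fun g hg => hVU (hV ⟨hW1 (hI1 ?_), hW2 (hI2 ?_)⟩)⟩
  · intro i hi
    have hin : i ≤ n := hn i (Finset.mem_union_left _ hi)
    have : tr g i = tr 1 i := by
      rw [tr_eq_iff]
      intro z hz
      rw [one_smul]
      exact hg z (hz.trans (by exact_mod_cast hin))
    show tr g i ∈ u1 i
    rw [this]
    exact (hu1 i hi).2
  · intro i hi
    have hin : i ≤ n := hn i (Finset.mem_union_right _ hi)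
    have : tr g⁻¹ i = tr 1⁻¹ i := by
      rw [tr_eq_iff]
      intro z hz
      rw [inv_one, one_smul]
      exact (O n).inv_mem hg z (hz.trans (by exact_mod_cast hin))
    show tr g⁻¹ i ∈ u2 i
    rw [this]
    exact (hu2 i hi).2

theorem scale_O : Scale O where
  isOpen := isOpen_O
  basis := basis_O
  anti := fun x y hxy g hg z hz => hg z (hz.trans hxy)
  conj := by
    intro g x u hu z hz
    have h1 : g⁻¹ • z ≤ x := by
      have := (LG_strictMono g⁻¹).monotone hz
      simpa only [inv_smul_smul] using this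
    rw [mul_smul, mul_smul, hu _ h1, smul_inv_smul]
  mono := fun g x y hxy => (LG_strictMono g).monotone hxy
  fix := fun x u hu => hu x le_rfl
  trans := by
    intro x m r hm hr
    have hl : 0 < (m - x) / (r - x) := div_pos (sub_pos.2 hm) (sub_pos.2 hr)
    have hH : hmap x ⟨_, hl⟩ ∈ H := Subgroup.subset_closure ⟨(x, ⟨_, hl⟩), rfl⟩
    refine ⟨(⟨hmap x ⟨_, hl⟩, H_mem_LG hH⟩ : Gsub), ?_, ?_⟩
    · intro z hz
      show hmap x ⟨_, hl⟩ z = z
      rw [hmap_apply, if_pos hz]
    · show hmap x ⟨_, hl⟩ r = m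
      rw [hmap_apply, if_neg (not_le.2 hr)]
      have : r - x ≠ 0 := (sub_pos.2 hr).ne'
      field_simp
      ring

theorem uncountable_LG : Uncountable LG := by
  by_contra hcon
  rw [not_uncountable_iff] at hcon
  obtain ⟨g, hg⟩ := nonempty_interior_of_iUnion_of_closed (f := fun g : LG => ({g} : Set LG))
    (fun g => isClosed_singleton) (Set.iUnion_of_singleton LG)
  have hgo : IsOpen ({g} : Set LG) := by
    rw [← interior_eq_iff_isOpen]
    apply subset_antisymm interior_subset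
    obtain ⟨y, hy⟩ := hg
    have : y = g := by simpa using interior_subset hy
    rw [this] at hy
    simpa using hy
  have h1 : {u : LG | g * u ∈ ({g} : Set LG)} ∈ 𝓝 (1 : LG) := by
    have hc : Continuous fun u : LG => g * u := by fun_prop
    apply hc.continuousAt.preimage_mem_nhds
    rw [mul_one]
    exact hgo.mem_nhds rfl
  obtain ⟨x, hx⟩ := basis_O _ h1
  obtain ⟨α, hα, hα2⟩ := scale_O.trans x (x + 1) (x + 2) (by linarith) (by linarith)
  have h2 : g * α = g := hx hα
  have h3 : α = 1 := by simpa using h2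
  rw [h3, one_smul] at hα2
  linarith

end Pool.Agent.W486.Darji
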