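import Mathlib

set_option autoImplicit false
open Topology Set

namespace Pool.Agent.W486.Darji

section Abstract

variable {G : Type*} [Group G] [TopologicalSpace G] [IsTopologicalGroup G]
variable {X : Type*} [LinearOrder X] [DenselyOrdered X] [NoMaxOrder X] [Nonempty X] [MulAction G X]

/-- A family of open subgroups `O x`, indexed by a dense linear order without maximum on which the
group acts by order automorphisms; `O x` fixes `x` and acts transitively on `(x, ∞)`. -/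
structure Scale (O : X → Subgroup G) : Prop where
  isOpen : ∀ x, IsOpen (O x : Set G)
  basis : ∀ U ∈ 𝓝 (1 : G), ∃ x, (O x : Set G) ⊆ U
  anti : ∀ x y, x ≤ y → O y ≤ O x
  conj : ∀ (g : G) (x : X) (u : G), u ∈ O x → g * u * g⁻¹ ∈ O (g • x)
  mono : ∀ (g : G) (x y : X), x ≤ y → g • x ≤ g • y
  fix : ∀ (x : X) (u : G), u ∈ O x → u • x = x
  trans : ∀ x m r : X, x < m → x < r → ∃ α ∈ O x, α • r = m

variable {O : X → Subgroup G}

omit [DenselyOrdered X] [NoMaxOrder X] [Nonempty X] in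
theorem step (hO : Scale O) {U : Set G} (hU : IsOpen U) (hd : Dense U) (k c a : G) (x y m : X)
    (hx : x < m) (hy : y ≤ k • x) :
    ∃ α ∈ O x, ∃ γ ∈ O y, ∀ α' ∈ O m, ∀ γ' ∈ O (k • m), ∀ w ∈ O m,
      c * (γ * γ') * (k * w) * ((α' * α) * a) ∈ U := by
  -- a point of `U` in `c k O_x a`
  have hopen : IsOpen {u : G | k⁻¹ * (c⁻¹ * u * a⁻¹) ∈ O x} := by
    have hc : Continuous fun u : G => k⁻¹ * (c⁻¹ * u * a⁻¹) := by fun_prop
    exact (hO.isOpen x).preimage hc
  have hne : {u : G | k⁻¹ * (c⁻¹ * u * a⁻¹) ∈ O x}.Nonempty := by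
    refine ⟨c * k * a, ?_⟩
    have : k⁻¹ * (c⁻¹ * (c * k * a) * a⁻¹) = 1 := by group
    rw [Set.mem_ofPred_eq, this]
    exact (O x).one_mem
  obtain ⟨u, hu1, hu2⟩ := hd.inter_open_nonempty _ hopen hne
  set β : G := k⁻¹ * (c⁻¹ * u * a⁻¹) with hβ
  have hu : c * (k * β * 1) * a = u := by rw [hβ]; group
  have hβx : β ∈ O x := hu1
  -- a neighbourhood
  have hc2 : Continuous fun v : G => c * (k * β * v) * a := by fun_prop
  have hnb : {v : G | c * (k * β * v) * a ∈ U} ∈ 𝓝 (1 : G) := by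
    apply hc2.continuousAt.preimage_mem_nhds
    rw [hu]
    exact hU.mem_nhds hu2
  obtain ⟨r0, hr0⟩ := hO.basis _ hnb
  set r := max r0 m with hr
  have hxr : x < r := lt_of_lt_of_le hx (le_max_right _ _)
  obtain ⟨α, hα, hαr⟩ := hO.trans x m r hx hxr
  refine ⟨α, hα, k * (β * α⁻¹) * k⁻¹, ?_, ?_⟩
  · exact hO.anti _ _ hy (hO.conj k x _ ((O x).mul_mem hβx ((O x).inv_mem hα)))
  · intro α' hα' γ' hγ' w hw
    have h1 : k⁻¹ * γ' * k ∈ O m := by
      have := hO.conj k⁻¹ (k • m) γ' hγ'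
      rwa [inv_inv, inv_smul_smul] at this
    have h2 : (k⁻¹ * γ' * k) * w * α' ∈ O m := (O m).mul_mem ((O m).mul_mem h1 hw) hα'
    have h3 : α⁻¹ * ((k⁻¹ * γ' * k) * w * α') * α ∈ O r := by
      have := hO.conj α⁻¹ m _ h2
      rw [inv_inv] at this
      have hm : α⁻¹ • m = r := by rw [← hαr, inv_smul_smul]
      rwa [hm] at this
    have h4 := hr0 (hO.anti r0 r (le_max_left _ _) h3)
    have h5 : c * (k * β * (α⁻¹ * ((k⁻¹ * γ' * k) * w * α') * α)) * a =
        c * (k * (β * α⁻¹) * k⁻¹ * γ') * (k * w) * ((α' * α) * a) := by group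
    rw [← h5]
    exact h4

omit [NoMaxOrder X] [Nonempty X] in
theorem multi (hO : Scale O) {U : Set G} (hU : IsOpen U) (hd : Dense U) (n : ℕ) :
    ∀ (S : Finset G), S.card = n → ∀ (c a : G) (x y m : X), x < m → (∀ k ∈ S, y ≤ k • x) →
    ∃ α ∈ O x, ∃ γ ∈ O y, ∀ k ∈ S, ∀ w ∈ O m, (c * γ) * (k * w) * (α * a) ∈ U := by
  classical
  induction n with
  | zero =>
    intro S hS c a x y m _ _
    rw [Finset.card_eq_zero] at hS
    subst hS
    exact ⟨1, (O x).one_mem, 1, (O y).one_mem, by simp⟩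
  | succ n ih =>
    intro S hS c a x y m hxm hy
    have hne : S.Nonempty := by
      rw [← Finset.card_pos, hS]; exact Nat.succ_pos _
    obtain ⟨m1, hm1, hm2⟩ := exists_between hxm
    obtain ⟨j, hj, hjmin⟩ := Finset.exists_min_image S (fun k => k • m1) hne
    obtain ⟨α, hα, γ, hγ, hst⟩ := step hO hU hd j c a x y m1 hm1 (hy j hj)
    obtain ⟨α2, hα2, γ2, hγ2, hih⟩ := ih (S.erase j)
      (by rw [Finset.card_erase_of_mem hj, hS]; rfl) (c * γ) (α * a) m1 (j • m1) m hm2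
      (fun k hk => hjmin k (Finset.mem_of_mem_erase hk))
    refine ⟨α2 * α, (O x).mul_mem (hO.anti _ _ hm1.le hα2) hα, γ * γ2,
      (O y).mul_mem hγ (hO.anti _ _ ((hy j hj).trans (hO.mono j _ _ hm1.le)) hγ2), ?_⟩
    intro k hk w hw
    by_cases hkj : k = j
    · subst hkj
      exact hst α2 hα2 γ2 hγ2 w (hO.anti _ _ hm2.le hw)
    · have := hih k (Finset.mem_erase.2 ⟨hkj, hk⟩) w hw
      have h5 : c * (γ * γ2) * (k * w) * (α2 * α * a) = c * γ * γ2 * (k * w) * (α2 * (α * a)) := by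
        group
      rw [h5]
      exact this

omit [Nonempty X] [LinearOrder X] [DenselyOrdered X] [NoMaxOrder X] [MulAction G X] in
theorem isOpen_D {U K : Set G} (hU : IsOpen U) (hK : IsCompact K) :
    IsOpen {p : G × G | ∀ k ∈ K, p.1 * k * p.2 ∈ U} := by
  rw [isOpen_iff_eventually]
  intro p hp
  apply hK.eventually_forall_of_forall_eventually
  intro k hk
  have hc : Continuous fun z : (G × G) × G => z.1.1 * z.2 * z.1.2 := by fun_prop

  exact hc.continuousAt.preimage_mem_nhds (hU.mem_nhds (hp k hk))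

theorem dense_D (hO : Scale O) {U K : Set G} (hU : IsOpen U) (hd : Dense U) (hK : IsCompact K) :
    Dense {p : G × G | ∀ k ∈ K, p.1 * k * p.2 ∈ U} := by
  rw [dense_iff_inter_open]
  rintro N hN ⟨⟨c0, a0⟩, hca⟩
  have hc : Continuous fun z : G × G => (c0 * z.1, z.2 * a0) := by fun_prop
  have hN' : {z : G × G | (c0 * z.1, z.2 * a0) ∈ N} ∈ 𝓝 ((1 : G), (1 : G)) := by
    apply hc.continuousAt.preimage_mem_nhds
    apply hN.mem_nhds
    simpa using hca
  rw [mem_nhds_prod_iff] at hN'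
  obtain ⟨A, hA, B, hB, hAB⟩ := hN'
  obtain ⟨y0, hy0⟩ := hO.basis A hA
  obtain ⟨x0, hx0⟩ := hO.basis B hB
  -- bound
  have hb : ∃ x1 : X, ∀ k ∈ K, y0 ≤ k • x1 := by
    refine hK.induction_on (p := fun s => ∃ x1 : X, ∀ k ∈ s, y0 ≤ k • x1) ?_ ?_ ?_ ?_
    · exact ⟨Classical.arbitrary X, by simp⟩
    · rintro s t hst ⟨x1, hx1⟩
      exact ⟨x1, fun k hk => hx1 k (hst hk)⟩
    · rintro s t ⟨x1, hx1⟩ ⟨x2, hx2⟩
      refine ⟨max x1 x2, ?_⟩
      rintro k (hk | hk)
      · exact (hx1 k hk).trans (hO.mono k _ _ (le_max_left _ _))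
      · exact (hx2 k hk).trans (hO.mono k _ _ (le_max_right _ _))
    · intro k _
      refine ⟨{k' | k' * k⁻¹ ∈ O y0}, ?_, k⁻¹ • y0, ?_⟩
      · apply mem_nhdsWithin_of_mem_nhds
        have hc3 : Continuous fun k' : G => k' * k⁻¹ := by fun_prop
        apply ((hO.isOpen y0).preimage hc3).mem_nhds
        simp only [mem_preimage, mul_inv_cancel, SetLike.mem_coe]
        exact (O y0).one_mem
      · intro k' hk'
        have h1 : k' • k⁻¹ • y0 = y0 := by
          rw [smul_smul]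
          exact hO.fix y0 _ hk'
        rw [h1]
  obtain ⟨x1, hx1⟩ := hb
  set x := max x0 x1 with hx
  obtain ⟨m, hm⟩ := exists_gt x
  obtain ⟨S, hSK, hS⟩ := hK.elim_nhds_subcover (fun k => {k' : G | k⁻¹ * k' ∈ O m}) (by
    intro k _
    have hc3 : Continuous fun k' : G => k⁻¹ * k' := by fun_prop
    apply ((hO.isOpen m).preimage hc3).mem_nhds
    simp only [mem_preimage, inv_mul_cancel, SetLike.mem_coe]
    exact (O m).one_mem)
  obtain ⟨α, hα, γ, hγ, h⟩ := multi hO hU hd S.card S rfl c0 a0 x y0 m hm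
    (fun k hk => (hx1 k (hSK k hk)).trans (hO.mono k _ _ (le_max_right _ _)))
  refine ⟨(c0 * γ, α * a0), ?_, ?_⟩
  · exact hAB (show (γ, α) ∈ A ×ˢ B from
      ⟨hy0 hγ, hx0 (hO.anti _ _ (le_max_left _ _) hα)⟩)
  · intro k hk
    obtain ⟨j, hj, hkj⟩ := mem_iUnion₂.1 (hS hk)
    have := h j hj (j⁻¹ * k) hkj
    rwa [mul_inv_cancel_left] at this

/-- Every comeager set contains a two-sided translate of every compact set. -/
theorem comeager_contains (hO : Scale O) [BaireSpace (G × G)] {B K : Set G}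
    (hB : B ∈ residual G) (hK : IsCompact K) : ∃ c a : G, ∀ k ∈ K, c * k * a ∈ B := by
  obtain ⟨S, hS1, hS2, hS3, hS4⟩ := mem_residual_iff.1 hB
  have hdense : Dense (⋂ t ∈ S, {p : G × G | ∀ k ∈ K, p.1 * k * p.2 ∈ t}) :=
    dense_biInter_of_isOpen (fun t ht => isOpen_D (hS1 t ht) hK) hS3
      (fun t ht => dense_D hO (hS1 t ht) (hS2 t ht) hK)
  obtain ⟨p, hp⟩ := hdense.nonempty
  refine ⟨p.1, p.2, fun k hk => hS4 ?_⟩
  rw [mem_sInter]
  intro t ht
  exact (mem_iInter₂.1 hp t ht) k hk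

theorem no_decomposition (hO : Scale O) [PolishSpace G] [MeasurableSpace G] [BorelSpace G] :
    ¬ ∃ A B : Set G, A ∪ B = Set.univ ∧ IsMeagre A ∧
          ∃ C : Set G, MeasurableSet C ∧ B ⊆ C ∧
            ∃ μ : MeasureTheory.Measure G, MeasureTheory.IsProbabilityMeasure μ ∧
              ∀ g h : G, μ ((fun x => g * x * h) '' C) = 0 := by
  rintro ⟨A, B, hAB, hA, C, _, hBC, μ, hμ, hnull⟩
  have hC : C ∈ residual G := by
    refine Filter.mem_of_superset hA ?_
    intro x hx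
    apply hBC
    have : x ∈ A ∪ B := by rw [hAB]; trivial
    exact this.resolve_left hx
  have hpos : (0 : ENNReal) < μ Set.univ := by
    rw [MeasureTheory.measure_univ]; exact zero_lt_one
  obtain ⟨K, _, hK, hKpos⟩ := MeasurableSet.univ.exists_lt_isCompact hpos
  obtain ⟨c, a, h⟩ := comeager_contains hO hC hK
  have h0 := hnull c⁻¹ a⁻¹
  have hsub : K ⊆ (fun x => c⁻¹ * x * a⁻¹) '' C := by
    intro k hk
    exact ⟨c * k * a, h k hk, by group⟩
  have := MeasureTheory.measure_mono (μ := μ) hsub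
  rw [h0] at this
  exact absurd hKpos (not_lt.2 this)

end Abstract

end Pool.Agent.W486.Darji
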