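import Pool.Agent.W894.MB.Defs2

set_option autoImplicit false

/-!
# Below an index there are few conditions
-/

namespace Pool.Agent.W486.MCHead

open Set Pool.Agent.W894.MB

universe u v w x

theorem Smaller.mono {T : Type v} {T' : Type x} {K : Type u} [LinearOrder K] (h : Smaller T K)
    (f : T' ↪ T) : Smaller T' K := by
  obtain ⟨a, e, he, hl⟩ := h
  exact ⟨a, fun t => e (f t), fun x y hxy => f.injective (he hxy), fun t => hl _⟩

theorem smaller_or (X : Type v) (K : Type u) [LinearOrder K] [WellFoundedLT K] :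
    Smaller X K ∨ Nonempty (K ↪ X) := by
  classical
  rcases InitialSeg.total (WellOrderingRel (α := X)) ((· < ·) : K → K → Prop) with f | f
  · rcases f.principalSumRelIso with g | e
    · left
      exact ⟨g.top, g, g.toRelEmbedding.injective, fun t => g.lt_top t⟩
    · right
      exact ⟨e.symm.toEquiv.toEmbedding⟩
  · right
    exact ⟨f.toRelEmbedding.toEmbedding⟩

/-- the order types are strong limits -/
theorem strong (h : G_COMPL.{u, v}) (K : Type u) [LinearOrder K] [WellFoundedLT K]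
    (U : Ultrafilter K) (hU : NormalMeasure U) (T : Type v) (hT : Smaller (T ⊕ ℕ) K) :
    Smaller (Set T) K := by
  classical
  rcases smaller_or (Set T) K with h1 | h0
  · exact h1
  · exfalso
    obtain ⟨f⟩ := h0
    have hB : ∀ t : T, {x | t ∈ f x ↔ {y | t ∈ f y} ∈ U} ∈ U := by
      intro t
      by_cases ht : {y | t ∈ f y} ∈ U
      · refine Filter.mem_of_superset ht fun x hx => ?_
        exact ⟨fun _ => ht, fun _ => hx⟩
      · have h2 : {y | t ∈ f y}ᶜ ∈ U := Ultrafilter.compl_mem_iff_notMem.2 ht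
        refine Filter.mem_of_superset h2 fun x hx => ?_
        exact ⟨fun h3 => (hx h3).elim, fun h3 => (ht h3).elim⟩
    have hA := h K U hU T hT (fun t => {x | t ∈ f x ↔ {y | t ∈ f y} ∈ U}) hB
    set A := ⋂ t, {x | t ∈ f x ↔ {y | t ∈ f y} ∈ U} with hAdef
    have hone : ∀ x ∈ A, ∀ y ∈ A, x = y := by
      intro x hx y hy
      apply f.injective
      ext t
      have h1 := Set.mem_iInter.1 hx t
      have h2 := Set.mem_iInter.1 hy t
      exact Iff.trans h1 (Iff.symm h2)
    obtain ⟨a, ha⟩ := U.nonempty_of_mem hA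
    obtain ⟨b, hb, hab⟩ := U.nonempty_of_mem (Filter.inter_mem hA (hU.tail a))
    exact absurd (hone a ha b hb) (ne_of_lt hab)

theorem exists_embedding (Y : Type v) : Nonempty (Y × Y ↪ Y ⊕ ℕ) := by
  have h1 : Cardinal.mk ((Y ⊕ ℕ) × (Y ⊕ ℕ)) = Cardinal.mk (Y ⊕ ℕ) := by
    rw [← Cardinal.mul_def]
    exact Cardinal.mul_eq_self (Cardinal.aleph0_le_mk _)
  obtain ⟨e⟩ := Cardinal.eq.1 h1
  exact ⟨(Function.Embedding.prodMap Function.Embedding.inl Function.Embedding.inl).trans
    e.toEmbedding⟩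

theorem main (h : G_COMPL.{u, max u w}) : G_HEAD.{u, w} := by
  classical
  intro I _ _ F i
  have hs := F.small i
  obtain ⟨e⟩ := exists_embedding (Σ j : Set.Iio i, F.K j.1)
  have hT : Smaller (((Σ j : Set.Iio i, F.K j.1) ⊕ ℕ) ⊕ ℕ) (F.K i) := by
    refine Smaller.mono hs ?_
    exact ((Equiv.sumAssoc _ _ _).trans
      (Equiv.sumCongr (Equiv.refl _) Equiv.natSumNatEquivNat)).toEmbedding
  have h1 := strong h (F.K i) (F.U i) (F.nm i) ((Σ j : Set.Iio i, F.K j.1) ⊕ ℕ) hT
  refine Smaller.mono h1 ?_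
  refine ⟨fun p => e '' {q : (Σ j : Set.Iio i, F.K j.1) × (Σ j : Set.Iio i, F.K j.1) |
    ∃ (j : Set.Iio i) (x y : F.K j.1), q = (⟨j, x⟩, ⟨j, y⟩) ∧ (p j).f x = some y}, ?_⟩
  intro p p' hpp
  have h2 := e.injective.image_injective hpp
  have key : ∀ (p p' : ∀ j : Set.Iio i, CondZ (F.Z j.1) (F.K j.1)),
      {q : (Σ j : Set.Iio i, F.K j.1) × (Σ j : Set.Iio i, F.K j.1) |
        ∃ (j : Set.Iio i) (x y : F.K j.1), q = (⟨j, x⟩, ⟨j, y⟩) ∧ (p j).f x = some y} ⊆
      {q : (Σ j : Set.Iio i, F.K j.1) × (Σ j : Set.Iio i, F.K j.1) |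
        ∃ (j : Set.Iio i) (x y : F.K j.1), q = (⟨j, x⟩, ⟨j, y⟩) ∧ (p' j).f x = some y} →
      ∀ j x y, (p j).f x = some y → (p' j).f x = some y := by
    intro p p' hsub j x y hxy
    obtain ⟨j', x', y', hq, h3⟩ := hsub (show ((⟨j, x⟩, ⟨j, y⟩) :
      (Σ j : Set.Iio i, F.K j.1) × (Σ j : Set.Iio i, F.K j.1)) ∈ _ from ⟨j, x, y, rfl, hxy⟩)
    have e1 := congrArg Prod.fst hq
    have e2 := congrArg Prod.snd hq
    simp only at e1 e2
    cases e1
    cases e2
    exact h3
  have k1 := key p p' h2.subset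
  have k2 := key p' p h2.superset
  funext j
  have hf : (p j).f = (p' j).f := by
    funext x
    cases h4 : (p j).f x with
    | some y => exact (k1 j x y h4).symm
    | none =>
      cases h5 : (p' j).f x with
      | some y =>
        have := k2 j x y h5
        rw [h4] at this
        exact this
      | none => rfl
  cases h6 : p j
  cases h7 : p' j
  rw [h6, h7] at hf
  simp only at hf
  subst hf
  rfl

end Pool.Agent.W486.MCHead
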